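import Mathlib

namespace Run7.h292.HE

open MvPolynomial

variable {k : Type*} [Field k]

/-- More fractions with a common denominator than variables satisfy a polynomial relation. -/
theorem exists_relation [Infinite k] {σ J : Type} [Fintype J] (W : Finset σ)
    (hW : W.card < Fintype.card J) (G : J → MvPolynomial σ k) (D : MvPolynomial σ k) :
    ∃ P : MvPolynomial J k, P ≠ 0 ∧ ∀ a : σ → k, (∀ s, s ∉ W → a s = 0) → eval a D ≠ 0 →
      eval (fun j => eval a (G j) / eval a D) P = 0 := by
  classical
  -- restriction to the variables in `W`, and an extra variable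
  let ρ : MvPolynomial σ k →ₐ[k] MvPolynomial (Option W) k :=
    aeval (fun s => if h : s ∈ W then X (some ⟨s, h⟩) else 0)
  let u : Option J → MvPolynomial (Option W) k := fun o =>
    o.elim (X none * ρ D) (fun j => X none * ρ (G j))
  have hdep : ¬ AlgebraicIndependent k u := by
    intro h
    have h1 := h.lift_cardinalMk_le_trdeg
    rw [MvPolynomial.trdeg_of_isDomain] at h1
    simp only [Cardinal.mk_fintype, Fintype.card_option, Fintype.card_coe, Cardinal.lift_natCast,
      Nat.cast_le] at h1
    omega
  rw [algebraicIndependent_iff] at hdep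
  push Not at hdep
  obtain ⟨p, hp, hp0⟩ := hdep
  have hpX : p * X none ≠ 0 := mul_ne_zero hp0 (X_ne_zero _)
  obtain ⟨c, hc⟩ : ∃ c : Option J → k, eval c (p * X none) ≠ 0 := by
    by_contra hcon
    push Not at hcon
    exact hpX (MvPolynomial.funext fun c => by rw [hcon c, map_zero])
  rw [map_mul, eval_X] at hc
  have hcp := left_ne_zero_of_mul hc
  have hc0 := right_ne_zero_of_mul hc
  let P : MvPolynomial J k := aeval (fun o : Option J => o.elim (C (c none))
    (fun j => C (c none) * X j)) p
  have hP : ∀ t : J → k, eval t P = eval (fun o : Option J => o.elim (c none)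
      (fun j => c none * t j)) p := by
    intro t
    have : eval t P = aeval t P := by rw [← MvPolynomial.coe_aeval_eq_eval]; rfl
    rw [this]
    change aeval t (aeval _ p) = _
    rw [← AlgHom.comp_apply, comp_aeval]
    rw [← MvPolynomial.coe_aeval_eq_eval]
    change aeval _ p = aeval _ p
    congr 2
    funext o
    cases o <;> simp
  refine ⟨P, ?_, ?_⟩
  · intro h0
    have := hP (fun j => c (some j) / c none)
    rw [h0, map_zero] at this
    apply hcp
    rw [this]
    congr 2
    funext o
    cases o with
    | none => rfl
    | some j => simp [mul_div_cancel₀ _ hc0]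
  · intro a ha hD
    rw [hP]
    let b : Option W → k := fun o => o.elim (c none / eval a D) (fun s => a s.1)
    have hρ : ∀ f : MvPolynomial σ k, aeval b (ρ f) = eval a f := by
      intro f
      change aeval b (aeval _ f) = _
      rw [← AlgHom.comp_apply, comp_aeval, ← MvPolynomial.coe_aeval_eq_eval]
      change aeval _ f = aeval _ f
      congr 2
      funext s
      by_cases h : s ∈ W
      · simp [h, b]
      · simp [h, ha s h]
    have h1 : aeval b (aeval u p) = 0 := by rw [hp, map_zero]
    rw [← AlgHom.comp_apply, comp_aeval] at h1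
    rw [← MvPolynomial.coe_aeval_eq_eval]
    change aeval _ p = 0
    rw [← h1]
    congr 2
    funext o
    cases o with
    | none =>
      change c none = aeval b (X none * ρ D)
      rw [map_mul, hρ, aeval_X]
      simp [b, hD]
    | some j =>
      change c none * (eval a (G j) / eval a D) = aeval b (X none * ρ (G j))
      rw [map_mul, hρ, aeval_X]
      simp only [b, Option.elim]
      ring

/-- Homogenisation of a polynomial evaluated at fractions. -/
theorem exists_homog {σ J : Type} (G : J → MvPolynomial σ k) (D : MvPolynomial σ k)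
    (P : MvPolynomial J k) : ∃ (m : ℕ) (F : MvPolynomial σ k), ∀ a : σ → k, eval a D ≠ 0 →
      eval a F = eval a D ^ m * eval (fun j => eval a (G j) / eval a D) P := by
  induction P using MvPolynomial.induction_on with
  | C c => exact ⟨0, C c, fun a _ => by simp⟩
  | add p q hp hq =>
    obtain ⟨m₁, F₁, h₁⟩ := hp
    obtain ⟨m₂, F₂, h₂⟩ := hq
    refine ⟨m₁ + m₂, D ^ m₂ * F₁ + D ^ m₁ * F₂, fun a ha => ?_⟩
    rw [map_add, map_mul, map_mul, h₁ a ha, h₂ a ha, map_add, map_pow, map_pow]
    ring
  | mul_X p j hp =>
    obtain ⟨m, F, h⟩ := hp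
    refine ⟨m + 1, F * G j, fun a ha => ?_⟩
    rw [map_mul, h a ha, map_mul, eval_X, pow_succ]
    field_simp

end Run7.h292.HE
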