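import Pool.Agent.Run7.h292.HE.Dense
import Pool.Agent.Run7.h292.HE.Dep

namespace Run7.h292.HE

open MvPolynomial

variable {k : Type*} [Field k] {n r : ℕ}

/-- `φ` identifies `k[x]/I` with `k^N` so that the `wᵢ` become the standard basis. -/
structure Norm {N : ℕ} (w : Fin N → MvPolynomial (Fin n) k)
    (φ : MvPolynomial (Fin n) k →ₗ[k] (Fin N → k)) (I : Ideal (MvPolynomial (Fin n) k)) : Prop where
  surj : Function.Surjective φ
  ker : ∀ f, φ f = 0 ↔ f ∈ I
  basis : ∀ i, φ (w i) = Pi.single i 1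

theorem norm_mulVec {N : ℕ} {w : Fin N → MvPolynomial (Fin n) k}
    {φ ψ : MvPolynomial (Fin n) k →ₗ[k] (Fin N → k)} {I : Ideal (MvPolynomial (Fin n) k)}
    (hφ : Norm w φ I) (hψ : ∀ f, ψ f = 0 ↔ f ∈ I) (f : MvPolynomial (Fin n) k) :
    (Matrix.of fun p j => ψ (w j) p).mulVec (φ f) = ψ f := by
  have h1 : f - ∑ j, φ f j • w j ∈ I := by
    rw [← hφ.ker, map_sub, map_sum]
    ext p
    simp [hφ.basis, Finset.sum_apply, Pi.single_apply]
  rw [← hψ, map_sub, sub_eq_zero] at h1
  rw [h1, map_sum]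
  ext p
  simp [Matrix.mulVec, dotProduct, Finset.sum_apply, mul_comm]

theorem exists_chart {N : ℕ} {Q : Type} (w : Fin N → MvPolynomial (Fin n) k)
    (z : Q → MvPolynomial (Fin n) k) :
    ∃ (D : MvPolynomial (Coord n N) k) (G : Q × Fin N → MvPolynomial (Coord n N) k),
      ∀ (a : Coord n N → k) (I : Hilb k n N), Represents a I.1 →
        ((∃ φ, Norm w φ I.1) ↔ eval a D ≠ 0) ∧
        ∀ φ, Norm w φ I.1 → ∀ x : Q × Fin N, φ (z x.1) x.2 = eval a (G x) / eval a D := by
  choose P hP using exists_poly (k := k) n N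
  let A : Matrix (Fin N) (Fin N) (MvPolynomial (Coord n N) k) := Matrix.of fun p j => P (w j) p
  refine ⟨A.det, fun x => (A.adjugate.mulVec (P (z x.1))) x.2, fun a I hrep => ?_⟩
  obtain ⟨ψ, sψ, kψ, ha⟩ := hrep
  set B : Matrix (Fin N) (Fin N) k := Matrix.of fun p j => ψ (w j) p with hB
  have hAB : (eval a).mapMatrix A = B := by
    ext p j
    rw [RingHom.mapMatrix_apply, Matrix.map_apply]
    simp only [A, hB, Matrix.of_apply]
    rw [← hP (w j) ψ a ha]
  have hdet : eval a A.det = B.det := by rw [RingHom.map_det, hAB]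
  have hadj : ∀ x : Q × Fin N, eval a ((A.adjugate.mulVec (P (z x.1))) x.2) =
      (B.adjugate.mulVec (ψ (z x.1))) x.2 := by
    intro x
    rw [← hAB, ← RingHom.map_adjugate, Matrix.mulVec, Matrix.mulVec, dotProduct, dotProduct,
      map_sum]
    refine Finset.sum_congr rfl fun j _ => ?_
    rw [map_mul, hP (z x.1) ψ a ha]
    rfl
  have hnorm : ∀ φ, Norm w φ I.1 → B.det ≠ 0 := by
    intro φ hφ hdet0
    obtain ⟨v, hv, hv0⟩ := Matrix.exists_mulVec_eq_zero_iff.2 hdet0
    obtain ⟨f, rfl⟩ := hφ.surj v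
    rw [norm_mulVec hφ kψ f, kψ, ← hφ.ker] at hv0
    exact hv hv0
  constructor
  · rw [hdet]
    constructor
    · rintro ⟨φ, hφ⟩
      exact hnorm φ hφ
    · intro h
      have hu : IsUnit B.det := isUnit_iff_ne_zero.2 h
      refine ⟨(Matrix.mulVecLin B⁻¹) ∘ₗ ψ, ?_, ?_, ?_⟩
      · intro v
        obtain ⟨f, hf⟩ := sψ (B.mulVec v)
        refine ⟨f, ?_⟩
        rw [LinearMap.comp_apply, hf, Matrix.mulVecLin_apply, Matrix.mulVec_mulVec,
          Matrix.nonsing_inv_mul _ hu, Matrix.one_mulVec]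
      · intro f
        rw [← kψ, LinearMap.comp_apply, Matrix.mulVecLin_apply]
        constructor
        · intro hf
          have : B.mulVec (B⁻¹.mulVec (ψ f)) = ψ f := by
            rw [Matrix.mulVec_mulVec, Matrix.mul_nonsing_inv _ hu, Matrix.one_mulVec]
          rw [← this, hf, Matrix.mulVec_zero]
        · intro hf
          rw [hf, Matrix.mulVec_zero]
      · intro i
        have : ψ (w i) = B.mulVec (Pi.single i 1) := by
          ext p
          simp [hB]
        rw [LinearMap.comp_apply, Matrix.mulVecLin_apply, this, Matrix.mulVec_mulVec,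
          Matrix.nonsing_inv_mul _ hu, Matrix.one_mulVec]
  · intro φ hφ x
    have h0 := hnorm φ hφ
    rw [hadj, hdet, ← norm_mulVec hφ kψ (z x.1), Matrix.mulVec_mulVec, Matrix.adjugate_mul,
      Matrix.smul_mulVec, Matrix.one_mulVec, Pi.smul_apply, smul_eq_mul]
    field_simp

/-- Subsets of a chart given by an inequation in the coordinates are open. -/
theorem isOpen_chart {N : ℕ} {Q : Type} (w : Fin N → MvPolynomial (Fin n) k)
    (z : Q → MvPolynomial (Fin n) k) (P : MvPolynomial (Q × Fin N) k) :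
    IsOpen {I : Hilb k n N | ∃ φ, Norm w φ I.1 ∧
      eval (fun x : Q × Fin N => φ (z x.1) x.2) P ≠ 0} := by
  obtain ⟨D, G, h⟩ := exists_chart w z
  obtain ⟨m, F, hF⟩ := exists_homog G D P
  refine ⟨{D * F}, fun a I ha => ?_⟩
  obtain ⟨h1, h2⟩ := h a I ha
  simp only [Set.mem_singleton_iff, exists_eq_left, map_mul]
  constructor
  · rintro ⟨φ, hφ, hP⟩
    have hD := h1.1 ⟨φ, hφ⟩
    refine mul_ne_zero hD ?_
    rw [hF a hD]
    refine mul_ne_zero (pow_ne_zero _ hD) ?_
    have : (fun x : Q × Fin N => φ (z x.1) x.2) = fun x => eval a (G x) / eval a D :=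
      funext (h2 φ hφ)
    rwa [← this]
  · intro hne
    have hD := left_ne_zero_of_mul hne
    have hF' := right_ne_zero_of_mul hne
    obtain ⟨φ, hφ⟩ := h1.2 hD
    refine ⟨φ, hφ, ?_⟩
    have : (fun x : Q × Fin N => φ (z x.1) x.2) = fun x => eval a (G x) / eval a D :=
      funext (h2 φ hφ)
    rw [this]
    rw [hF a hD] at hF'
    exact right_ne_zero_of_mul hF'

end Run7.h292.HE
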