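import Pool.Agent.Run7.h292.HE.Rep

namespace Run7.h292.HE

open MvPolynomial

variable {k : Type*} [Field k] {n r : ℕ}

/-- Direct sum of two framed tuples. -/
def dsum {R : Type*} [Zero R] {N₁ N₂ : ℕ} (a : Coord n N₁ → R) (b : Coord n N₂ → R) :
    Coord n (N₁ + N₂) → R
  | Sum.inl (l, i, j) =>
    Fin.addCases (fun i₁ => Fin.addCases (fun j₁ => a (Sum.inl (l, i₁, j₁))) (fun _ => 0) j)
      (fun i₂ => Fin.addCases (fun _ => 0) (fun j₂ => b (Sum.inl (l, i₂, j₂))) j) i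
  | Sum.inr i => Fin.addCases (fun i₁ => a (Sum.inr i₁)) (fun i₂ => b (Sum.inr i₂)) i

theorem map_dsum {R S : Type*} [CommSemiring R] [CommSemiring S] (f : R →+* S) {N₁ N₂ : ℕ}
    (a : Coord n N₁ → R) (b : Coord n N₂ → R) (s : Coord n (N₁ + N₂)) :
    f (dsum a b s) = dsum (fun x => f (a x)) (fun x => f (b x)) s := by
  rcases s with ⟨l, i, j⟩ | i
  · refine Fin.addCases (fun i₁ => ?_) (fun i₂ => ?_) i <;>
    refine Fin.addCases (fun j₁ => ?_) (fun j₂ => ?_) j <;> simp [dsum]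
  · refine Fin.addCases (fun i₁ => ?_) (fun i₂ => ?_) i <;> simp [dsum]

/-- Direct sum of two linear maps. -/
noncomputable def lsum {N₁ N₂ : ℕ} (φ : MvPolynomial (Fin n) k →ₗ[k] (Fin N₁ → k))
    (ψ : MvPolynomial (Fin n) k →ₗ[k] (Fin N₂ → k)) :
    MvPolynomial (Fin n) k →ₗ[k] (Fin (N₁ + N₂) → k) where
  toFun f := Fin.addCases (φ f) (ψ f)
  map_add' f g := by
    ext p
    refine Fin.addCases (fun i₁ => ?_) (fun i₂ => ?_) p <;> simp
  map_smul' c f := by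
    ext p
    refine Fin.addCases (fun i₁ => ?_) (fun i₂ => ?_) p <;> simp

@[simp] theorem lsum_left {N₁ N₂ : ℕ} (φ : MvPolynomial (Fin n) k →ₗ[k] (Fin N₁ → k))
    (ψ : MvPolynomial (Fin n) k →ₗ[k] (Fin N₂ → k)) (f : MvPolynomial (Fin n) k) (i : Fin N₁) :
    lsum φ ψ f (Fin.castAdd N₂ i) = φ f i := by
  simp [lsum]

@[simp] theorem lsum_right {N₁ N₂ : ℕ} (φ : MvPolynomial (Fin n) k →ₗ[k] (Fin N₁ → k))
    (ψ : MvPolynomial (Fin n) k →ₗ[k] (Fin N₂ → k)) (f : MvPolynomial (Fin n) k) (i : Fin N₂) :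
    lsum φ ψ f (Fin.natAdd N₁ i) = ψ f i := by
  simp [lsum]

theorem compat_lsum {N₁ N₂ : ℕ} {φ : MvPolynomial (Fin n) k →ₗ[k] (Fin N₁ → k)}
    {ψ : MvPolynomial (Fin n) k →ₗ[k] (Fin N₂ → k)} {a : Coord n N₁ → k} {b : Coord n N₂ → k}
    (ha : Compat φ a) (hb : Compat ψ b) : Compat (lsum φ ψ) (dsum a b) := by
  constructor
  · ext p
    refine Fin.addCases (fun i₁ => ?_) (fun i₂ => ?_) p
    · rw [lsum_left, ha.one]; simp [vec, dsum]
    · rw [lsum_right, hb.one]; simp [vec, dsum]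
  · intro l f
    ext p
    refine Fin.addCases (fun i₁ => ?_) (fun i₂ => ?_) p
    · rw [lsum_left, ha.mul]
      simp [Matrix.mulVec, dotProduct, Fin.sum_univ_add, mat, dsum]
    · rw [lsum_right, hb.mul]
      simp [Matrix.mulVec, dotProduct, Fin.sum_univ_add, mat, dsum]

theorem lsum_eq_zero {N₁ N₂ : ℕ} {φ : MvPolynomial (Fin n) k →ₗ[k] (Fin N₁ → k)}
    {ψ : MvPolynomial (Fin n) k →ₗ[k] (Fin N₂ → k)} {J K : Ideal (MvPolynomial (Fin n) k)}
    (hφ : ∀ f, φ f = 0 ↔ f ∈ J) (hψ : ∀ f, ψ f = 0 ↔ f ∈ K) (f : MvPolynomial (Fin n) k) :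
    lsum φ ψ f = 0 ↔ f ∈ J ⊓ K := by
  rw [Submodule.mem_inf, ← hφ, ← hψ]
  constructor
  · intro h
    constructor
    · ext i
      rw [← lsum_left φ ψ f i, h]; rfl
    · ext i
      rw [← lsum_right φ ψ f i, h]; rfl
  · rintro ⟨h1, h2⟩
    ext p
    refine Fin.addCases (fun i₁ => ?_) (fun i₂ => ?_) p
    · rw [lsum_left, h1]; rfl
    · rw [lsum_right, h2]; rfl

theorem lsum_surj {N₁ N₂ : ℕ} {φ : MvPolynomial (Fin n) k →ₗ[k] (Fin N₁ → k)}
    {ψ : MvPolynomial (Fin n) k →ₗ[k] (Fin N₂ → k)} {J K : Ideal (MvPolynomial (Fin n) k)}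
    (hφ : ∀ f, φ f = 0 ↔ f ∈ J) (hψ : ∀ f, ψ f = 0 ↔ f ∈ K)
    (sφ : Function.Surjective φ) (sψ : Function.Surjective ψ) :
    Function.Surjective (lsum φ ψ) ↔ J ⊔ K = ⊤ := by
  constructor
  · intro h
    obtain ⟨g, hg⟩ := h (Fin.addCases (fun _ => 0) (ψ 1))
    rw [Ideal.eq_top_iff_one]
    have h1 : g ∈ J := by
      rw [← hφ]
      ext i
      rw [← lsum_left φ ψ g i, hg]; simp
    have h2 : 1 - g ∈ K := by
      rw [← hψ, map_sub, sub_eq_zero]
      ext i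
      rw [← lsum_right φ ψ g i, hg]; simp
    have : (1 : MvPolynomial (Fin n) k) = g + (1 - g) := by ring
    rw [this]
    exact Submodule.add_mem_sup h1 h2
  · intro h
    rw [Ideal.eq_top_iff_one] at h
    obtain ⟨x, hx, y, hy, hxy⟩ := Submodule.mem_sup.1 h
    intro v
    obtain ⟨f, hf⟩ := sφ (fun i => v (Fin.castAdd N₂ i))
    obtain ⟨g, hg⟩ := sψ (fun i => v (Fin.natAdd N₁ i))
    refine ⟨f * y + g * x, ?_⟩
    have e1 : φ (f * y + g * x) = φ f := by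
      rw [← sub_eq_zero, ← map_sub, hφ]
      have : f * y + g * x - f = (g - f) * x := by
        rw [← eq_sub_iff_add_eq'] at hxy
        rw [hxy]; ring
      rw [this]
      exact J.mul_mem_left _ hx
    have e2 : ψ (f * y + g * x) = ψ g := by
      rw [← sub_eq_zero, ← map_sub, hψ]
      have : f * y + g * x - g = (f - g) * y := by
        rw [← eq_sub_iff_add_eq] at hxy
        rw [hxy]; ring
      rw [this]
      exact K.mul_mem_left _ hy
    ext p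
    refine Fin.addCases (fun i₁ => ?_) (fun i₂ => ?_) p
    · rw [lsum_left, e1, hf]
    · rw [lsum_right, e2, hg]

/-- Adding a fixed subscheme, disjoint from the variable one, is continuous. -/
theorem isOpen_add {N₁ N₂ N : ℕ} (hN : N₁ + N₂ = N) (K : Hilb k n N₂) (U : Set (Hilb k n N))
    (hU : IsOpen U) :
    IsOpen {J : Hilb k n N₁ | J.1 ⊔ K.1 = ⊤ ∧ ∃ I ∈ U, I.1 = J.1 ⊓ K.1} := by
  subst hN
  obtain ⟨F, hF⟩ := (isOpen_iff U).1 hU
  obtain ⟨b, ψ, sψ, hψ, hb⟩ := exists_represents K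
  choose P hP using exists_poly (k := k) n (N₁ + N₂)
  -- substitution of `dsum X b`
  let ρ : MvPolynomial (Coord n (N₁ + N₂)) k →+* MvPolynomial (Coord n N₁) k :=
    (bind₁ (dsum (fun s => X s) (fun s => C (b s)))).toRingHom
  have hρ : ∀ (a : Coord n N₁ → k) (f : MvPolynomial (Coord n (N₁ + N₂)) k),
      eval a (ρ f) = eval (dsum a b) f := by
    intro a f
    change eval a (bind₁ _ f) = _
    rw [← MvPolynomial.coe_aeval_eq_eval, ← MvPolynomial.coe_aeval_eq_eval]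
    change aeval a (bind₁ _ f) = aeval _ f
    rw [aeval_bind₁]
    congr 2
    funext s
    exact (map_dsum (eval a) _ _ s).trans (by simp)
  refine ⟨{h | ∃ f ∈ F, ∃ w : Fin (N₁ + N₂) → MvPolynomial (Fin n) k,
    h = ρ (f * (Matrix.of fun p j => P (w j) p).det)}, fun a J ha => ?_⟩
  obtain ⟨φ, sφ, hφ, ha'⟩ := ha
  have hc := compat_lsum ha' hb
  have hdet : ∀ w : Fin (N₁ + N₂) → MvPolynomial (Fin n) k,
      eval (dsum a b) (Matrix.of fun p j => P (w j) p).det =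
        (Matrix.of fun p j => lsum φ ψ (w j) p).det := by
    intro w
    rw [RingHom.map_det]
    congr 1
    ext p j
    rw [RingHom.mapMatrix_apply, Matrix.map_apply, Matrix.of_apply, Matrix.of_apply,
      hP (w j) _ _ hc]
  constructor
  · rintro ⟨htop, I, hI, hIJ⟩
    have hs := (lsum_surj hφ hψ sφ sψ).2 htop
    have hrep : Represents (dsum a b) I.1 :=
      ⟨lsum φ ψ, hs, fun f => by rw [hIJ]; exact lsum_eq_zero hφ hψ f, hc⟩
    obtain ⟨f, hf, hf'⟩ := (hF _ I hrep).1 hI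
    obtain ⟨w, hw⟩ := exists_det_of_surj _ hs
    refine ⟨_, ⟨f, hf, w, rfl⟩, ?_⟩
    rw [hρ, map_mul, hdet]
    exact mul_ne_zero hf' hw
  · rintro ⟨h, ⟨f, hf, w, rfl⟩, hh⟩
    rw [hρ, map_mul, hdet] at hh
    have hs : Function.Surjective (lsum φ ψ) := surj_of_det _ w (right_ne_zero_of_mul hh)
    have htop := (lsum_surj hφ hψ sφ sψ).1 hs
    have hrep : Represents (dsum a b) (J.1 ⊓ K.1) :=
      ⟨lsum φ ψ, hs, fun f => lsum_eq_zero hφ hψ f, hc⟩
    let I : Hilb k n (N₁ + N₂) := ⟨J.1 ⊓ K.1, hilb_of_represents hrep⟩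
    exact ⟨htop, I, (hF _ I hrep).2 ⟨f, hf, left_ne_zero_of_mul hh⟩, rfl⟩

end Run7.h292.HE
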