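import Mathlib

/-!
# Hilbert schemes of points of affine space: definitions

`Hilb k n r` is the set of closed points of `Hilb_r(𝔸ⁿ)`, with the Zariski topology, seen as the
quotient topology of the variety of framed commuting `n`-tuples of `r × r` matrices.
-/

namespace Run7.h292.HE

open MvPolynomial

/-- The closed points of `Hilb_r(𝔸ⁿ)`: ideals `I` of `k[x₁,…,xₙ]` with `dim k[x₁,…,xₙ]/I = r`. -/
def Hilb (k : Type*) [Field k] (n r : ℕ) : Type _ :=
  {I : Ideal (MvPolynomial (Fin n) k) //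
    Module.Finite k (MvPolynomial (Fin n) k ⧸ I) ∧
      Module.finrank k (MvPolynomial (Fin n) k ⧸ I) = r}

/-- Coordinates on the affine space of `n` matrices of size `r × r` together with one vector of
length `r`: `inl (i, p, q)` is the entry `(p, q)` of the `i`-th matrix, `inr p` is the entry `p` of
the vector. -/
abbrev Coord (n r : ℕ) : Type := (Fin n × Fin r × Fin r) ⊕ Fin r

/-- The `i`-th matrix of a point. -/
def mat {R : Type*} {n r : ℕ} (a : Coord n r → R) (i : Fin n) : Matrix (Fin r) (Fin r) R :=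
  fun p q => a (Sum.inl (i, p, q))

/-- The vector of a point. -/
def vec {R : Type*} {n r : ℕ} (a : Coord n r → R) : Fin r → R :=
  fun p => a (Sum.inr p)

/-- `φ` sends `1` to the vector of `a`, and turns multiplication by `xᵢ` into the `i`-th matrix
of `a`. -/
structure Compat {k : Type*} [Field k] {n r : ℕ}
    (φ : MvPolynomial (Fin n) k →ₗ[k] (Fin r → k)) (a : Coord n r → k) : Prop where
  one : φ 1 = vec a
  mul : ∀ (i : Fin n) (f : MvPolynomial (Fin n) k), φ (X i * f) = (mat a i).mulVec (φ f)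

/-- `a = (M₁,…,Mₙ,v)` represents `I`: for some basis of `k[x₁,…,xₙ]/I`, given by a surjective
linear map `φ` onto `k^r` with kernel `I`, the matrix of multiplication by `xᵢ` is `Mᵢ` and the
coordinate vector of `1` is `v`. -/
def Represents {k : Type*} [Field k] {n r : ℕ} (a : Coord n r → k)
    (I : Ideal (MvPolynomial (Fin n) k)) : Prop :=
  ∃ φ : MvPolynomial (Fin n) k →ₗ[k] (Fin r → k),
    Function.Surjective φ ∧ (∀ f, φ f = 0 ↔ f ∈ I) ∧ Compat φ a

/-- The Zariski topology of (the closed points of) `Hilb_r(𝔸ⁿ)`: a set `U` is open when the set of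
all `(M₁,…,Mₙ,v)` representing a point of `U` is open in the set of all `(M₁,…,Mₙ,v)` that
represent a point of `Hilb_r(𝔸ⁿ)`, for the Zariski topology on the space of all
`(M₁,…,Mₙ,v)`. -/
instance {k : Type*} [Field k] {n r : ℕ} : TopologicalSpace (Hilb k n r) where
  IsOpen U := ∃ F : Set (MvPolynomial (Coord n r) k),
    ∀ (a : Coord n r → k) (I : Hilb k n r), Represents a I.1 →
      (I ∈ U ↔ ∃ f ∈ F, eval a f ≠ 0)
  isOpen_univ := ⟨{1}, by intro a I _; simp⟩
  isOpen_inter := by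
    rintro U V ⟨F, hF⟩ ⟨G, hG⟩
    refine ⟨{h | ∃ f ∈ F, ∃ g ∈ G, h = f * g}, fun a I ha => ?_⟩
    rw [Set.mem_inter_iff, hF a I ha, hG a I ha]
    constructor
    · rintro ⟨⟨f, hf, hf'⟩, ⟨g, hg, hg'⟩⟩
      exact ⟨f * g, ⟨f, hf, g, hg, rfl⟩, by rw [map_mul]; exact mul_ne_zero hf' hg'⟩
    · rintro ⟨h, ⟨f, hf, g, hg, rfl⟩, hh⟩
      rw [map_mul] at hh
      exact ⟨⟨f, hf, left_ne_zero_of_mul hh⟩, ⟨g, hg, right_ne_zero_of_mul hh⟩⟩
  isOpen_sUnion := by
    intro S hS
    choose! F hF using hS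
    refine ⟨⋃ U ∈ S, F U, fun a I ha => ?_⟩
    constructor
    · rintro ⟨U, hU, hI⟩
      obtain ⟨f, hf, hf'⟩ := (hF U hU a I ha).1 hI
      exact ⟨f, Set.mem_biUnion hU hf, hf'⟩
    · rintro ⟨f, hf, hf'⟩
      rw [Set.mem_iUnion₂] at hf
      obtain ⟨U, hU, hf⟩ := hf
      exact ⟨U, hU, (hF U hU a I ha).2 ⟨f, hf, hf'⟩⟩

/-- The subscheme of `𝔸ⁿ` defined by `I` is supported at exactly one point. -/
def OnePoint {k : Type*} [Field k] {n r : ℕ} (I : Hilb k n r) : Prop :=
  ∃! p : Fin n → k, ∀ f ∈ I.1, eval p f = 0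

/-- `C` is an elementary component of `Hilb_r(𝔸ⁿ)`: an irreducible component, such that all points
of some nonempty (relatively) open subset of `C` correspond to subschemes supported at a single
point. -/
def IsElementary {k : Type*} [Field k] {n r : ℕ} (C : Set (Hilb k n r)) : Prop :=
  C ∈ irreducibleComponents (Hilb k n r) ∧
    ∃ U : Set (Hilb k n r), IsOpen U ∧ (U ∩ C).Nonempty ∧ ∀ I ∈ U ∩ C, OnePoint I

theorem isOpen_iff {k : Type*} [Field k] {n r : ℕ} (U : Set (Hilb k n r)) :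
    IsOpen U ↔ ∃ F : Set (MvPolynomial (Coord n r) k),
      ∀ (a : Coord n r → k) (I : Hilb k n r), Represents a I.1 →
        (I ∈ U ↔ ∃ f ∈ F, eval a f ≠ 0) := Iff.rfl

end Run7.h292.HE
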