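import Pool.Agent.Run7.h292.HE.Split

namespace Run7.h292.HE

open MvPolynomial

variable {k : Type*} [Field k] {n r : ℕ}

/-- Points having sparse matrices in a suitable basis. -/
def Blk (R : ℕ) {N : ℕ} (I : Hilb k n N) : Prop :=
  ∃ a : Coord n N → k, Represents a I.1 ∧ ∃ E : Finset (Fin N × Fin N),
    E.card ≤ R * N ∧ ∀ l i j, (i, j) ∉ E → a (Sum.inl (l, i, j)) = 0

theorem blk_of_le {R N : ℕ} (h : N ≤ R) (I : Hilb k n N) : Blk R I := by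
  obtain ⟨a, ha⟩ := exists_represents I
  refine ⟨a, ha, Finset.univ, ?_, fun l i j hij => absurd (Finset.mem_univ _) hij⟩
  rw [Finset.card_univ, Fintype.card_prod, Fintype.card_fin]
  exact Nat.mul_le_mul_right _ h

theorem blk_add {R N₁ N₂ : ℕ} {J : Hilb k n N₁} {K : Hilb k n N₂} (hJ : Blk R J) (hK : Blk R K)
    (htop : J.1 ⊔ K.1 = ⊤) (I : Hilb k n (N₁ + N₂)) (hI : I.1 = J.1 ⊓ K.1) : Blk R I := by
  obtain ⟨a, ⟨φ, sφ, hφ, ha⟩, E₁, hE₁, h₁⟩ := hJ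
  obtain ⟨b, ⟨ψ, sψ, hψ, hb⟩, E₂, hE₂, h₂⟩ := hK
  refine ⟨dsum a b, ⟨lsum φ ψ, (lsum_surj hφ hψ sφ sψ).2 htop, fun f => ?_, compat_lsum ha hb⟩,
    E₁.image (fun x => (Fin.castAdd N₂ x.1, Fin.castAdd N₂ x.2)) ∪
      E₂.image (fun x => (Fin.natAdd N₁ x.1, Fin.natAdd N₁ x.2)), ?_, ?_⟩
  · rw [hI]; exact lsum_eq_zero hφ hψ f
  · refine (Finset.card_union_le _ _).trans ?_
    rw [mul_add]
    exact add_le_add (Finset.card_image_le.trans hE₁) (Finset.card_image_le.trans hE₂)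
  · intro l i j
    refine Fin.addCases (fun i₁ => ?_) (fun i₂ => ?_) i <;>
    refine Fin.addCases (fun j₁ => ?_) (fun j₂ => ?_) j
    · intro h
      have : (i₁, j₁) ∉ E₁ := fun h' =>
        h (Finset.mem_union_left _ (Finset.mem_image_of_mem _ h'))
      simpa [dsum] using h₁ l _ _ this
    · intro _; simp [dsum]
    · intro _; simp [dsum]
    · intro h
      have : (i₂, j₂) ∉ E₂ := fun h' =>
        h (Finset.mem_union_right _ (Finset.mem_image_of_mem _ h'))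
      simpa [dsum] using h₂ l _ _ this

/-- The colength of a coprime intersection. -/
theorem exists_hilb_split {N : ℕ} (I : Hilb k n N) (J₁ J₂ : Ideal (MvPolynomial (Fin n) k))
    (htop : J₁ ⊔ J₂ = ⊤) (hinf : J₁ ⊓ J₂ = I.1) (h₁ : J₁ ≠ ⊤) (h₂ : J₂ ≠ ⊤) :
    ∃ N₁ N₂ : ℕ, N₁ + N₂ = N ∧ N₁ ≠ 0 ∧ N₂ ≠ 0 ∧ ∃ (K₁ : Hilb k n N₁) (K₂ : Hilb k n N₂),
      K₁.1 = J₁ ∧ K₂.1 = J₂ := by
  have hI := I.2.1
  have key : ∀ J : Ideal (MvPolynomial (Fin n) k), I.1 ≤ J → J ≠ ⊤ →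
      Module.Finite k (MvPolynomial (Fin n) k ⧸ J) ∧
        Module.finrank k (MvPolynomial (Fin n) k ⧸ J) ≠ 0 := by
    intro J hIJ hJ
    have hf : Module.Finite k (MvPolynomial (Fin n) k ⧸ J) :=
      Module.Finite.of_surjective (Ideal.Quotient.factorₐ k hIJ).toLinearMap
        (Ideal.Quotient.factor_surjective hIJ)
    have : Nontrivial (MvPolynomial (Fin n) k ⧸ J) := Ideal.Quotient.nontrivial_iff.2 hJ
    exact ⟨hf, Module.finrank_pos.ne'⟩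
  have k₁ := key J₁ (hinf ▸ inf_le_left) h₁
  have k₂ := key J₂ (hinf ▸ inf_le_right) h₂
  let K₁ : Hilb k n (Module.finrank k (MvPolynomial (Fin n) k ⧸ J₁)) := ⟨J₁, k₁.1, rfl⟩
  let K₂ : Hilb k n (Module.finrank k (MvPolynomial (Fin n) k ⧸ J₂)) := ⟨J₂, k₂.1, rfl⟩
  refine ⟨_, _, ?_, k₁.2, k₂.2, K₁, K₂, rfl, rfl⟩
  obtain ⟨φ, sφ, hφ⟩ := exists_surj K₁
  obtain ⟨ψ, sψ, hψ⟩ := exists_surj K₂
  have := (hilb_of_surj (lsum φ ψ) I.1 ((lsum_surj hφ hψ sφ sψ).2 htop)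
    (fun f => by rw [← hinf]; exact lsum_eq_zero hφ hψ f)).2
  rw [← this, I.2.2]

/-- If there is no elementary component in `Hilb_r` for `R < r ≤ M`, points with sparse matrices
are dense in `Hilb_N` for `N ≤ M`. -/
theorem dense_blk [IsAlgClosed k] {R M : ℕ}
    (hno : ∀ r, R < r → r ≤ M → ∀ C : Set (Hilb k n r), ¬ IsElementary C) (N : ℕ) :
    N ≤ M → ∀ U : Set (Hilb k n N), IsOpen U → U.Nonempty → ∃ I ∈ U, Blk R I := by
  induction N using Nat.strong_induction_on with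
  | _ N ih =>
  intro hNM U hU ⟨I, hI⟩
  rcases le_or_gt N R with hNR | hNR
  · exact ⟨I, hI, blk_of_le hNR I⟩
  · have hC := hno N hNR hNM (irreducibleComponent I)
    have : ∃ I' ∈ U ∩ irreducibleComponent I, ¬ OnePoint I' := by
      by_contra hcon
      push Not at hcon
      exact hC ⟨irreducibleComponent_mem_irreducibleComponents I, U, hU,
        ⟨I, hI, mem_irreducibleComponent⟩, hcon⟩
    obtain ⟨I', ⟨hI', -⟩, hone⟩ := this
    obtain ⟨J₁, J₂, htop, hinf, h₁, h₂⟩ := exists_split (by omega) I' hone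
    obtain ⟨N₁, N₂, hN, hN₁, hN₂, K₁, K₂, rfl, rfl⟩ := exists_hilb_split I' J₁ J₂ htop hinf h₁ h₂
    obtain ⟨L₁, ⟨hL₁, I₁, hI₁, hI₁'⟩, hB₁⟩ := ih N₁ (by omega) (by omega) _ (isOpen_add hN K₂ U hU)
      ⟨K₁, htop, I', hI', hinf.symm⟩
    have hN' : N₂ + N₁ = N := by omega
    obtain ⟨L₂, ⟨hL₂, I₂, hI₂, hI₂'⟩, hB₂⟩ := ih N₂ (by omega) (by omega) _ (isOpen_add hN' L₁ U hU)
      ⟨K₂, by rw [sup_comm]; exact hL₁, I₁, hI₁, by rw [hI₁', inf_comm]⟩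
    subst hN'
    exact ⟨I₂, hI₂, blk_add hB₂ hB₁ hL₂ I₂ hI₂'⟩

end Run7.h292.HE
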