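import Pool.Agent.Run7.h292.HE.Chart

namespace Run7.h292.HE

open MvPolynomial

variable {k : Type*} [Field k]

/-- Total degree of a monomial in three variables. -/
def dg (s : Fin 3 →₀ ℕ) : ℕ := s 0 + s 1 + s 2

/-- The monomial with given exponents. -/
noncomputable def mono (a b c : ℕ) : Fin 3 →₀ ℕ := Finsupp.equivFunOnFinite.symm ![a, b, c]

@[simp] theorem mono_zero (a b c : ℕ) : mono a b c 0 = a := rfl
@[simp] theorem mono_one (a b c : ℕ) : mono a b c 1 = b := rfl
@[simp] theorem mono_two (a b c : ℕ) : mono a b c 2 = c := rfl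

theorem mono_eq (s : Fin 3 →₀ ℕ) : mono (s 0) (s 1) (s 2) = s := by
  ext i
  fin_cases i <;> rfl

/-- Monomials of degree `< 3h`. -/
noncomputable def Lo (h : ℕ) : Finset (Fin 3 →₀ ℕ) :=
  ((Finset.univ : Finset (Fin (3 * h) × Fin (3 * h) × Fin (3 * h))).image
    (fun x => mono x.1 x.2.1 x.2.2)).filter (fun s => dg s < 3 * h)

theorem mem_Lo (h : ℕ) (s : Fin 3 →₀ ℕ) : s ∈ Lo h ↔ dg s < 3 * h := by
  rw [Lo, Finset.mem_filter]
  refine ⟨fun hs => hs.2, fun hs => ⟨?_, hs⟩⟩
  rw [Finset.mem_image]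
  unfold dg at hs
  exact ⟨(⟨s 0, by omega⟩, ⟨s 1, by omega⟩, ⟨s 2, by omega⟩), Finset.mem_univ _, mono_eq s⟩

theorem card_Lo (h : ℕ) : (Lo h).card ≤ 27 * h ^ 3 := by
  refine (Finset.card_filter_le _ _).trans (Finset.card_image_le.trans ?_)
  simp only [Finset.card_univ, Fintype.card_prod, Fintype.card_fin]
  apply le_of_eq
  ring

/-- The monomials of degree `3h` in the basis. -/
noncomputable def pm (h : ℕ) (x : Fin h × Fin h) : Fin 3 →₀ ℕ :=
  mono x.1 x.2 (3 * h - x.1 - x.2)

/-- The monomials of degree `3h` that are combinations of the previous ones. -/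
noncomputable def qm (h : ℕ) (x : Fin h × Fin h) : Fin 3 →₀ ℕ :=
  mono (h + x.1) x.2 (2 * h - x.1 - x.2)

theorem dg_pm (h : ℕ) (x : Fin h × Fin h) : dg (pm h x) = 3 * h := by
  simp only [dg, pm, mono_zero, mono_one, mono_two]
  omega

theorem dg_qm (h : ℕ) (x : Fin h × Fin h) : dg (qm h x) = 3 * h := by
  simp only [dg, qm, mono_zero, mono_one, mono_two]
  omega

theorem pm_inj (h : ℕ) : Function.Injective (pm h) := by
  rintro ⟨a, b⟩ ⟨c, d⟩ he
  have h0 := DFunLike.congr_fun he 0
  have h1 := DFunLike.congr_fun he 1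
  simp only [pm, mono_zero, mono_one] at h0 h1
  exact Prod.ext (Fin.ext h0) (Fin.ext h1)

theorem qm_inj (h : ℕ) : Function.Injective (qm h) := by
  rintro ⟨a, b⟩ ⟨c, d⟩ he
  have h0 := DFunLike.congr_fun he 0
  have h1 := DFunLike.congr_fun he 1
  simp only [qm, mono_zero, mono_one] at h0 h1
  exact Prod.ext (Fin.ext (Nat.add_left_cancel h0)) (Fin.ext h1)

theorem qm_ne_pm (h : ℕ) (x y : Fin h × Fin h) : qm h x ≠ pm h y := by
  intro he
  have h0 := DFunLike.congr_fun he 0
  simp only [qm, pm, mono_zero] at h0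
  omega

/-- The monomial basis. -/
noncomputable def BB (h : ℕ) : Finset (Fin 3 →₀ ℕ) := Lo h ∪ Finset.univ.image (pm h)

theorem card_BB (h : ℕ) : (BB h).card ≤ 27 * h ^ 3 + h ^ 2 := by
  refine (Finset.card_union_le _ _).trans (add_le_add (card_Lo h) (Finset.card_image_le.trans ?_))
  simp only [Finset.card_univ, Fintype.card_prod, Fintype.card_fin]
  apply le_of_eq
  ring

theorem qm_notMem (h : ℕ) (x : Fin h × Fin h) : qm h x ∉ BB h := by
  rw [BB, Finset.mem_union, mem_Lo, dg_qm, Finset.mem_image]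
  rintro (h1 | ⟨y, -, hy⟩)
  · omega
  · exact qm_ne_pm h x y hy.symm

/-- Enumeration of the basis. -/
noncomputable def bm (h : ℕ) (i : Fin (BB h).card) : Fin 3 →₀ ℕ := ((BB h).equivFin.symm i).1

theorem bm_inj (h : ℕ) : Function.Injective (bm h) :=
  Subtype.val_injective.comp (BB h).equivFin.symm.injective

theorem bm_mem (h : ℕ) (i : Fin (BB h).card) : bm h i ∈ BB h := ((BB h).equivFin.symm i).2

theorem exists_bm (h : ℕ) (s : Fin 3 →₀ ℕ) (hs : s ∈ BB h) : ∃ i, bm h i = s :=
  ⟨(BB h).equivFin ⟨s, hs⟩, by simp [bm]⟩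

/-- Position of `pm` in the enumeration. -/
noncomputable def idx (h : ℕ) (x : Fin h × Fin h) : Fin (BB h).card :=
  (BB h).equivFin ⟨pm h x, Finset.mem_union_right _ (Finset.mem_image_of_mem _ (Finset.mem_univ _))⟩

theorem bm_idx (h : ℕ) (x : Fin h × Fin h) : bm h (idx h x) = pm h x := by
  simp [bm, idx]

theorem idx_inj (h : ℕ) : Function.Injective (idx h) := by
  intro x y hxy
  apply pm_inj h
  rw [← bm_idx, ← bm_idx, hxy]

theorem dg_bm_le (h : ℕ) (i : Fin (BB h).card) : dg (bm h i) ≤ 3 * h := by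
  have := bm_mem h i
  rw [BB, Finset.mem_union, mem_Lo, Finset.mem_image] at this
  rcases this with h1 | ⟨y, -, hy⟩
  · exact h1.le
  · rw [← hy, dg_pm]

/-- Extension by zero of the parameters. -/
noncomputable def ext (h : ℕ) (t : (Fin h × Fin h) × (Fin h × Fin h) → k) (q : Fin h × Fin h)
    (i : Fin (BB h).card) : k := ∑ p, if idx h p = i then t (q, p) else 0

theorem ext_idx (h : ℕ) (t : (Fin h × Fin h) × (Fin h × Fin h) → k) (q p : Fin h × Fin h) :
    ext h t q (idx h p) = t (q, p) := by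
  unfold ext
  rw [Finset.sum_eq_single p]
  · simp
  · intro b _ hb
    rw [if_neg (fun hh => hb (idx_inj h hh))]
  · intro hp; exact absurd (Finset.mem_univ _) hp

theorem ext_eq_zero (h : ℕ) (t : (Fin h × Fin h) × (Fin h × Fin h) → k) (q : Fin h × Fin h)
    (i : Fin (BB h).card) (hi : dg (bm h i) < 3 * h) : ext h t q i = 0 := by
  unfold ext
  refine Finset.sum_eq_zero fun p _ => ?_
  rw [if_neg]
  rintro rfl
  rw [bm_idx, dg_pm] at hi
  exact lt_irrefl _ hi

/-- The projection onto the quotient. -/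
noncomputable def proj (h : ℕ) (t : (Fin h × Fin h) × (Fin h × Fin h) → k) :
    MvPolynomial (Fin 3) k →ₗ[k] (Fin (BB h).card → k) where
  toFun f i := coeff (bm h i) f + ∑ q, ext h t q i * coeff (qm h q) f
  map_add' f g := by
    funext i
    simp only [coeff_add, Pi.add_apply, mul_add, Finset.sum_add_distrib]
    ring
  map_smul' c f := by
    funext i
    simp only [coeff_smul, smul_eq_mul, RingHom.id_apply, Pi.smul_apply, mul_add, Finset.mul_sum]
    congr 1
    refine Finset.sum_congr rfl fun q _ => ?_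
    ring

theorem proj_apply (h : ℕ) (t : (Fin h × Fin h) × (Fin h × Fin h) → k)
    (f : MvPolynomial (Fin 3) k) (i : Fin (BB h).card) :
    proj h t f i = coeff (bm h i) f + ∑ q, ext h t q i * coeff (qm h q) f := rfl

theorem proj_bm (h : ℕ) (t : (Fin h × Fin h) × (Fin h × Fin h) → k) (i : Fin (BB h).card) :
    proj h t (monomial (bm h i) 1) = Pi.single i 1 := by
  funext j
  rw [proj_apply, Finset.sum_eq_zero, add_zero, coeff_monomial, Pi.single_apply]
  · by_cases hij : j = i
    · simp [hij]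
    · rw [if_neg (fun hh => hij (bm_inj h hh).symm), if_neg hij]
  · intro q _
    rw [coeff_monomial, if_neg, mul_zero]
    intro he
    exact qm_notMem h q (he ▸ bm_mem h i)

theorem proj_qm (h : ℕ) (t : (Fin h × Fin h) × (Fin h × Fin h) → k) (q : Fin h × Fin h)
    (i : Fin (BB h).card) : proj h t (monomial (qm h q) 1) i = ext h t q i := by
  rw [proj_apply, coeff_monomial, if_neg, zero_add, Finset.sum_eq_single q]
  · simp
  · intro b _ hb
    rw [coeff_monomial, if_neg (fun hh => hb (qm_inj h hh).symm), mul_zero]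
  · intro hq; exact absurd (Finset.mem_univ _) hq
  · intro he
    exact qm_notMem h q (he ▸ bm_mem h i)

theorem proj_surj (h : ℕ) (t : (Fin h × Fin h) × (Fin h × Fin h) → k) :
    Function.Surjective (proj h t) := by
  intro v
  refine ⟨∑ i, v i • monomial (bm h i) 1, ?_⟩
  rw [map_sum]
  funext j
  simp [Finset.sum_apply, proj_bm, Pi.single_apply]

theorem coeff_of_proj (h : ℕ) (t : (Fin h × Fin h) × (Fin h × Fin h) → k)
    (f : MvPolynomial (Fin 3) k) (hf : proj h t f = 0) (s : Fin 3 →₀ ℕ) (hs : dg s < 3 * h) :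
    coeff s f = 0 := by
  obtain ⟨i, rfl⟩ := exists_bm h s (Finset.mem_union_left _ ((mem_Lo h s).2 hs))
  have := congrFun hf i
  rw [proj_apply, Finset.sum_eq_zero, add_zero] at this
  · exact this
  · intro q _
    rw [ext_eq_zero h t q i hs, zero_mul]

theorem coeff_X_of_proj (h : ℕ) (t : (Fin h × Fin h) × (Fin h × Fin h) → k)
    (f : MvPolynomial (Fin 3) k) (hf : proj h t f = 0) (l : Fin 3) (s : Fin 3 →₀ ℕ)
    (hs : dg s ≤ 3 * h) : coeff s (X l * f) = 0 := by
  rw [coeff_X_mul']
  split_ifs with hl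
  · apply coeff_of_proj h t f hf
    have hne : s l ≠ 0 := Finsupp.mem_support_iff.1 hl
    unfold dg at hs ⊢
    fin_cases l <;> simp at hne ⊢ <;> omega
  · rfl

theorem proj_X (h : ℕ) (t : (Fin h × Fin h) × (Fin h × Fin h) → k)
    (f : MvPolynomial (Fin 3) k) (hf : proj h t f = 0) (l : Fin 3) : proj h t (X l * f) = 0 := by
  funext i
  rw [proj_apply, coeff_X_of_proj h t f hf l _ (dg_bm_le h i), Finset.sum_eq_zero, add_zero]
  · rfl
  · intro q _
    rw [coeff_X_of_proj h t f hf l _ (dg_qm h q).le, mul_zero]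

/-- The ideal `I_t`. -/
noncomputable def It (h : ℕ) (t : (Fin h × Fin h) × (Fin h × Fin h) → k) :
    Ideal (MvPolynomial (Fin 3) k) where
  carrier := {f | proj h t f = 0}
  add_mem' := by
    intro f g hf hg
    change proj h t (f + g) = 0
    rw [map_add, show proj h t f = 0 from hf, show proj h t g = 0 from hg, add_zero]
  zero_mem' := map_zero _
  smul_mem' := by
    intro g f hf
    change proj h t (g * f) = 0
    induction g using MvPolynomial.induction_on with
    | C c => rw [← smul_eq_C_mul, map_smul, show proj h t f = 0 from hf, smul_zero]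
    | add p q hp hq => rw [add_mul, map_add, hp, hq, add_zero]
    | mul_X p i hp =>
      have : p * X i * f = X i * (p * f) := by ring
      rw [this]
      exact proj_X h t _ hp i

theorem norm_It (h : ℕ) (t : (Fin h × Fin h) × (Fin h × Fin h) → k) :
    Norm (fun i => monomial (bm h i) 1) (proj h t) (It h t) :=
  ⟨proj_surj h t, fun _ => Iff.rfl, proj_bm h t⟩

/-- The point of the Hilbert scheme. -/
noncomputable def pt (h : ℕ) (t : (Fin h × Fin h) × (Fin h × Fin h) → k) :
    Hilb k 3 (BB h).card :=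
  ⟨It h t, hilb_of_surj (proj h t) (It h t) (proj_surj h t) (fun _ => Iff.rfl)⟩

end Run7.h292.HE
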