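import Pool.Agent.Run7.h292.HE.Family

namespace Run7.h292.HE

open MvPolynomial

variable {k : Type*} [Field k]

/-- The variables that may be nonzero for a tuple of matrices supported on `E`. -/
def Wf {N : ℕ} (E : Finset (Fin N × Fin N)) : Finset (Coord 3 N) :=
  ((Finset.univ : Finset (Fin 3)) ×ˢ E).image (fun x => Sum.inl (x.1, x.2.1, x.2.2)) ∪
    Finset.univ.image Sum.inr

theorem card_Wf {N : ℕ} (E : Finset (Fin N × Fin N)) : (Wf E).card ≤ 3 * E.card + N := by
  refine (Finset.card_union_le _ _).trans (add_le_add (Finset.card_image_le.trans ?_)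
    (Finset.card_image_le.trans ?_))
  · rw [Finset.card_product, Finset.card_univ, Fintype.card_fin]
  · rw [Finset.card_univ, Fintype.card_fin]

theorem count (R h N : ℕ) (hh : h = (3 * R + 1) * 28 + 1) (hN : N ≤ 27 * h ^ 3 + h ^ 2) :
    3 * (R * N) + N < h ^ 4 := by
  have h1 : 1 ≤ h := by omega
  have h2 : h ^ 2 ≤ h ^ 3 := Nat.pow_le_pow_right h1 (by norm_num)
  have h3 : N ≤ 28 * h ^ 3 := by omega
  have h4 : 0 < h ^ 3 := by positivity
  calc 3 * (R * N) + N = (3 * R + 1) * N := by ring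
    _ ≤ (3 * R + 1) * (28 * h ^ 3) := Nat.mul_le_mul_left _ h3
    _ = ((3 * R + 1) * 28) * h ^ 3 := by ring
    _ < h * h ^ 3 := Nat.mul_lt_mul_of_pos_right (by omega) h4
    _ = h ^ 4 := by ring

/-- A family of ideals with independent coordinates, more numerous than the entries of sparse
matrices, has a member near which there is no point with sparse matrices. -/
theorem core [Infinite k] {R N : ℕ} {Q J : Type} [Fintype J]
    (w : Fin N → MvPolynomial (Fin 3) k) (z : Q → MvPolynomial (Fin 3) k) (ι : J → Q × Fin N)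
    (hcard : 3 * (R * N) + N < Fintype.card J)
    (hfam : ∀ t : J → k, ∃ (I : Hilb k 3 N) (φ : MvPolynomial (Fin 3) k →ₗ[k] (Fin N → k)),
      Norm w φ I.1 ∧ ∀ j, φ (z (ι j).1) (ι j).2 = t j)
    (hdense : ∀ U : Set (Hilb k 3 N), IsOpen U → U.Nonempty → ∃ I ∈ U, Blk R I) : False := by
  obtain ⟨D, G, hDG⟩ := exists_chart w z
  have hrel : ∀ E : {E : Finset (Fin N × Fin N) // E.card ≤ R * N}, ∃ P : MvPolynomial J k,
      P ≠ 0 ∧ ∀ a : Coord 3 N → k, (∀ s, s ∉ Wf E.1 → a s = 0) → eval a D ≠ 0 →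
        eval (fun j => eval a (G (ι j)) / eval a D) P = 0 := by
    intro E
    refine exists_relation (Wf E.1) ?_ (fun j => G (ι j)) D
    have h1 := card_Wf E.1
    have h2 := E.2
    omega
  choose P hP0 hP using hrel
  have hPtot : ∏ E, P E ≠ 0 := Finset.prod_ne_zero_iff.2 fun E _ => hP0 E
  obtain ⟨t, ht⟩ : ∃ t, eval t (∏ E, P E) ≠ 0 := by
    by_contra hcon'
    push Not at hcon'
    exact hPtot (MvPolynomial.funext fun c => by rw [hcon' c, map_zero])
  obtain ⟨I₀, φ₀, hφ₀, hφt⟩ := hfam t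
  obtain ⟨I, ⟨φ, hφ, hφP⟩, a, ha, E, hE, hEa⟩ := hdense _
    (isOpen_chart w z (rename ι (∏ E, P E)))
    ⟨I₀, φ₀, hφ₀, by
      rw [eval_rename]
      have : ((fun x : Q × Fin N => φ₀ (z x.1) x.2) ∘ ι) = t := funext hφt
      rw [this]
      exact ht⟩
  obtain ⟨h1, h2⟩ := hDG a I ha
  have hD := h1.1 ⟨φ, hφ⟩
  apply hφP
  rw [eval_rename, map_prod]
  refine Finset.prod_eq_zero (Finset.mem_univ ⟨E, hE⟩) ?_
  have : ((fun x : Q × Fin N => φ (z x.1) x.2) ∘ ι) =
      fun j => eval a (G (ι j)) / eval a D := funext fun j => h2 φ hφ (ι j)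
  rw [this]
  refine hP ⟨E, hE⟩ a (fun s hs => ?_) hD
  rcases s with ⟨l, i, j⟩ | i
  · apply hEa
    intro hij
    exact hs (Finset.mem_union_left _ (Finset.mem_image.2
      ⟨(l, i, j), Finset.mem_product.2 ⟨Finset.mem_univ _, hij⟩, rfl⟩))
  · exact absurd (Finset.mem_union_right _ (Finset.mem_image_of_mem _ (Finset.mem_univ _))) hs

/-- Elementary components exist, with an explicit polynomial bound for the length. -/
theorem exists_elementary [IsAlgClosed k] (R : ℕ) :
    ∃ r, R < r ∧ r ≤ 28 * (84 * R + 29) ^ 3 ∧ ∃ C : Set (Hilb k 3 r), IsElementary C := by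
  by_contra hcon
  have hinf : Infinite k := IsAlgClosed.instInfinite
  obtain ⟨h, hh⟩ : ∃ h, h = (3 * R + 1) * 28 + 1 := ⟨_, rfl⟩
  have hle : (BB h).card ≤ 28 * (84 * R + 29) ^ 3 := by
    have h1 : 1 ≤ h := by omega
    have h2 : h ^ 2 ≤ h ^ 3 := Nat.pow_le_pow_right h1 (by norm_num)
    have h3 : h = 84 * R + 29 := by omega
    have h4 := card_BB h
    rw [← h3]
    omega
  have hno : ∀ r, R < r → r ≤ (BB h).card → ∀ C : Set (Hilb k 3 r), ¬ IsElementary C :=
    fun r hr hr' C hC => hcon ⟨r, hr, hr'.trans hle, C, hC⟩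
  have hcount := count R h (BB h).card hh (card_BB h)
  refine core (R := R) (fun i : Fin (BB h).card => monomial (bm h i) 1)
    (fun q : Fin h × Fin h => monomial (qm h q) 1)
    (fun j : (Fin h × Fin h) × (Fin h × Fin h) => (j.1, idx h j.2)) ?_ (fun t => ?_)
    (dense_blk hno (BB h).card le_rfl)
  · have h3 : Fintype.card ((Fin h × Fin h) × (Fin h × Fin h)) = h ^ 4 := by
      simp only [Fintype.card_prod, Fintype.card_fin]; ring
    rw [h3]
    exact hcount
  · refine ⟨pt h t, proj h t, norm_It h t, fun j => ?_⟩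
    rw [proj_qm, ext_idx]

theorem infinite_elementary [IsAlgClosed k] :
    Set.Infinite {p : Σ r : ℕ, Set (Hilb k 3 r) | IsElementary p.2} := by
  intro hfin
  obtain ⟨R, hR⟩ := (hfin.image Sigma.fst).bddAbove
  obtain ⟨r, hr, -, C, hC⟩ := exists_elementary (k := k) R
  exact absurd (hR ⟨⟨r, C⟩, hC, rfl⟩) (not_le.2 hr)

end Run7.h292.HE
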