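import Pool.Agent.Run7.h292.HE.Defs

namespace Run7.h292.HE

open MvPolynomial

variable {k : Type*} [Field k] {n r : ℕ}

/-- A surjection onto `k^r` with kernel `I` identifies the quotient with `k^r`. -/
theorem exists_equiv {r : ℕ} (φ : MvPolynomial (Fin n) k →ₗ[k] (Fin r → k))
    (I : Ideal (MvPolynomial (Fin n) k)) (hs : Function.Surjective φ)
    (hk : ∀ f, φ f = 0 ↔ f ∈ I) :
    Nonempty ((MvPolynomial (Fin n) k ⧸ I) ≃ₗ[k] (Fin r → k)) := by
  let π : MvPolynomial (Fin n) k →ₗ[k] (MvPolynomial (Fin n) k ⧸ I) :=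
    (Ideal.Quotient.mkₐ k I).toLinearMap
  have hπ : Function.Surjective π := Ideal.Quotient.mkₐ_surjective k I
  have hker : LinearMap.ker π = LinearMap.ker φ := by
    ext f
    rw [LinearMap.mem_ker, LinearMap.mem_ker, hk]
    change Ideal.Quotient.mk I f = 0 ↔ _
    exact Ideal.Quotient.eq_zero_iff_mem
  exact ⟨(π.quotKerEquivOfSurjective hπ).symm ≪≫ₗ (Submodule.quotEquivOfEq _ _ hker) ≪≫ₗ
    (φ.quotKerEquivOfSurjective hs)⟩

theorem hilb_of_surj {r : ℕ} (φ : MvPolynomial (Fin n) k →ₗ[k] (Fin r → k))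
    (I : Ideal (MvPolynomial (Fin n) k)) (hs : Function.Surjective φ)
    (hk : ∀ f, φ f = 0 ↔ f ∈ I) :
    Module.Finite k (MvPolynomial (Fin n) k ⧸ I) ∧
      Module.finrank k (MvPolynomial (Fin n) k ⧸ I) = r := by
  obtain ⟨e⟩ := exists_equiv φ I hs hk
  refine ⟨Module.Finite.equiv e.symm, ?_⟩
  rw [e.finrank_eq, Module.finrank_fin_fun]

theorem hilb_of_represents {a : Coord n r → k} {I : Ideal (MvPolynomial (Fin n) k)}
    (h : Represents a I) :
    Module.Finite k (MvPolynomial (Fin n) k ⧸ I) ∧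
      Module.finrank k (MvPolynomial (Fin n) k ⧸ I) = r := by
  obtain ⟨φ, hs, hk, -⟩ := h
  exact hilb_of_surj φ I hs hk

/-- A surjection with kernel an ideal gives matrices. -/
theorem exists_represents_of_surj (φ : MvPolynomial (Fin n) k →ₗ[k] (Fin r → k))
    (I : Ideal (MvPolynomial (Fin n) k)) (hs : Function.Surjective φ)
    (hk : ∀ f, φ f = 0 ↔ f ∈ I) : ∃ a : Coord n r → k, Compat φ a := by
  choose w hw using fun j : Fin r => hs (Pi.single j 1)
  refine ⟨Sum.elim (fun x => φ (X x.1 * w x.2.2) x.2.1) (φ 1), ?_, ?_⟩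
  · rfl
  · intro i f
    have h1 : f - ∑ j, C (φ f j) * w j ∈ I := by
      rw [← hk, map_sub, map_sum]
      have : ∀ j, φ (C (φ f j) * w j) = (φ f j) • (Pi.single j 1 : Fin r → k) := by
        intro j
        rw [← smul_eq_C_mul, map_smul, hw]
      simp only [this]
      ext p
      simp [Finset.sum_apply, Pi.single_apply]
    have h2 : X i * (f - ∑ j, C (φ f j) * w j) ∈ I := I.mul_mem_left _ h1
    rw [← hk, mul_sub, map_sub, sub_eq_zero] at h2
    rw [h2, Finset.mul_sum, map_sum]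
    ext p
    simp only [Matrix.mulVec, dotProduct, Finset.sum_apply, mat, Sum.elim_inl]
    refine Finset.sum_congr rfl fun j _ => ?_
    rw [mul_left_comm, ← smul_eq_C_mul, map_smul, Pi.smul_apply, smul_eq_mul, mul_comm]

theorem exists_surj (I : Hilb k n r) : ∃ φ : MvPolynomial (Fin n) k →ₗ[k] (Fin r → k),
    Function.Surjective φ ∧ (∀ f, φ f = 0 ↔ f ∈ I.1) := by
  have := I.2.1
  let e : (MvPolynomial (Fin n) k ⧸ I.1) ≃ₗ[k] (Fin r → k) :=
    LinearEquiv.ofFinrankEq _ _ (by rw [I.2.2, Module.finrank_fin_fun])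
  refine ⟨e.toLinearMap ∘ₗ (Ideal.Quotient.mkₐ k I.1).toLinearMap, ?_, ?_⟩
  · exact e.surjective.comp (Ideal.Quotient.mkₐ_surjective k I.1)
  · intro f
    change e (Ideal.Quotient.mk I.1 f) = 0 ↔ _
    rw [LinearEquiv.map_eq_zero_iff]
    exact Ideal.Quotient.eq_zero_iff_mem

theorem exists_represents (I : Hilb k n r) : ∃ a : Coord n r → k, Represents a I.1 := by
  obtain ⟨φ, hs, hk⟩ := exists_surj I
  obtain ⟨a, ha⟩ := exists_represents_of_surj φ I.1 hs hk
  exact ⟨a, φ, hs, hk, ha⟩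

/-- The coordinates of `φ f` are polynomials in the entries of the matrices. -/
theorem exists_poly (n r : ℕ) (f : MvPolynomial (Fin n) k) :
    ∃ P : Fin r → MvPolynomial (Coord n r) k,
      ∀ (φ : MvPolynomial (Fin n) k →ₗ[k] (Fin r → k)) (a : Coord n r → k),
        Compat φ a → ∀ p, φ f p = eval a (P p) := by
  induction f using MvPolynomial.induction_on with
  | C c =>
    refine ⟨fun p => C c * X (Sum.inr p), fun φ a h p => ?_⟩
    have : φ (C c) = c • φ 1 := by rw [← map_smul, smul_eq_C_mul, mul_one]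
    rw [this, h.one]
    simp [vec]
  | add f g hf hg =>
    obtain ⟨P, hP⟩ := hf
    obtain ⟨Q, hQ⟩ := hg
    refine ⟨fun p => P p + Q p, fun φ a h p => ?_⟩
    rw [map_add, Pi.add_apply, hP φ a h, hQ φ a h, map_add]
  | mul_X f i hf =>
    obtain ⟨P, hP⟩ := hf
    refine ⟨fun p => ∑ q, X (Sum.inl (i, p, q)) * P q, fun φ a h p => ?_⟩
    rw [mul_comm, h.mul, Matrix.mulVec, dotProduct, map_sum]
    refine Finset.sum_congr rfl fun q _ => ?_
    rw [hP φ a h, map_mul, eval_X]
    rfl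

theorem surj_of_det (φ : MvPolynomial (Fin n) k →ₗ[k] (Fin r → k))
    (w : Fin r → MvPolynomial (Fin n) k)
    (h : (Matrix.of fun p j => φ (w j) p).det ≠ 0) : Function.Surjective φ := by
  intro v
  set A : Matrix (Fin r) (Fin r) k := Matrix.of fun p j => φ (w j) p with hA
  have hu : IsUnit A.det := isUnit_iff_ne_zero.2 h
  set c := A⁻¹.mulVec v with hc
  refine ⟨∑ j, c j • w j, ?_⟩
  have h1 : A.mulVec c = v := by
    rw [hc, Matrix.mulVec_mulVec, Matrix.mul_nonsing_inv _ hu, Matrix.one_mulVec]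
  rw [← h1, map_sum]
  ext p
  simp [Matrix.mulVec, dotProduct, hA, Finset.sum_apply, mul_comm]

theorem exists_det_of_surj (φ : MvPolynomial (Fin n) k →ₗ[k] (Fin r → k))
    (h : Function.Surjective φ) : ∃ w : Fin r → MvPolynomial (Fin n) k,
      (Matrix.of fun p j => φ (w j) p).det ≠ 0 := by
  choose w hw using fun j : Fin r => h (Pi.single j 1)
  refine ⟨w, ?_⟩
  have : (Matrix.of fun p j => φ (w j) p) = (1 : Matrix (Fin r) (Fin r) k) := by
    ext p j
    rw [Matrix.of_apply, hw, Matrix.one_apply, Pi.single_apply]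
  rw [this, Matrix.det_one]
  exact one_ne_zero

end Run7.h292.HE
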