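import Pool.Agent.Run7.h292.HE.DSum

namespace Run7.h292.HE

open MvPolynomial

variable {k : Type*} [Field k] {n r : ℕ}

/-- An ideal of finite colength whose zero set has two points is a coprime intersection. -/
theorem exists_split_of_ne (I : Ideal (MvPolynomial (Fin n) k))
    (hfin : Module.Finite k (MvPolynomial (Fin n) k ⧸ I)) (p q : Fin n → k) (hpq : p ≠ q)
    (hp : ∀ f ∈ I, eval p f = 0) (hq : ∀ f ∈ I, eval q f = 0) :
    ∃ J₁ J₂ : Ideal (MvPolynomial (Fin n) k), J₁ ⊔ J₂ = ⊤ ∧ J₁ ⊓ J₂ = I ∧ J₁ ≠ ⊤ ∧ J₂ ≠ ⊤ := by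
  obtain ⟨i, hi⟩ := Function.ne_iff.1 hpq
  let f : MvPolynomial (Fin n) k := X i - C (p i)
  have hfp : eval p f = 0 := by simp [f]
  have hfq : eval q f ≠ 0 := by simpa [f, sub_eq_zero] using fun h => hi h.symm
  let Q := MvPolynomial (Fin n) k ⧸ I
  have hn : IsNoetherianRing Q := IsNoetherianRing.of_finite k Q
  have ha : IsArtinianRing Q := IsArtinianRing.of_finite k Q
  let T : Module.End Q Q := LinearMap.mulLeft Q (Ideal.Quotient.mk I f)
  obtain ⟨m, hm⟩ := Filter.eventually_atTop.1 (LinearMap.eventually_isCompl_ker_pow_range_pow T)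
  have hc := hm (m + 1) (Nat.le_succ m)
  have hT : ∀ x, (T ^ (m + 1)) x = Ideal.Quotient.mk I (f ^ (m + 1)) * x := by
    intro x
    rw [LinearMap.pow_mulLeft, LinearMap.mulLeft_apply, map_pow]
  let J₁ : Ideal (MvPolynomial (Fin n) k) :=
    Ideal.comap (Ideal.Quotient.mk I) (LinearMap.range (T ^ (m + 1)))
  let J₂ : Ideal (MvPolynomial (Fin n) k) :=
    Ideal.comap (Ideal.Quotient.mk I) (LinearMap.ker (T ^ (m + 1)))
  have h1 : ∀ g, g ∈ J₁ ↔ ∃ h, g - f ^ (m + 1) * h ∈ I := by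
    intro g
    constructor
    · rintro ⟨y, hy⟩
      obtain ⟨h, rfl⟩ := Ideal.Quotient.mk_surjective y
      rw [hT, ← map_mul, Ideal.Quotient.eq] at hy
      exact ⟨h, by rw [← neg_mem_iff]; simpa using hy⟩
    · rintro ⟨h, hh⟩
      refine ⟨Ideal.Quotient.mk I h, ?_⟩
      rw [hT, ← map_mul, Ideal.Quotient.eq, ← neg_mem_iff]
      simpa using hh
  have h2 : ∀ g, g ∈ J₂ ↔ f ^ (m + 1) * g ∈ I := by
    intro g
    change (T ^ (m + 1)) (Ideal.Quotient.mk I g) = 0 ↔ _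
    rw [hT, ← map_mul, Ideal.Quotient.eq_zero_iff_mem]
  refine ⟨J₁, J₂, ?_, ?_, ?_, ?_⟩
  · rw [Ideal.eq_top_iff_one]
    have := hc.sup_eq_top
    have h1' : (1 : Q) ∈ LinearMap.ker (T ^ (m + 1)) ⊔ LinearMap.range (T ^ (m + 1)) := by
      rw [this]; trivial
    obtain ⟨x, hx, y, hy, hxy⟩ := Submodule.mem_sup.1 h1'
    obtain ⟨u, rfl⟩ := Ideal.Quotient.mk_surjective x
    obtain ⟨v, rfl⟩ := Ideal.Quotient.mk_surjective y
    have hu : u ∈ J₂ := hx
    have hv : v ∈ J₁ := hy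
    have hI : 1 - (u + v) ∈ J₁ := by
      change Ideal.Quotient.mk I _ ∈ LinearMap.range (T ^ (m + 1))
      rw [map_sub, map_add, hxy, map_one, sub_self]
      exact Submodule.zero_mem _
    have : (1 : MvPolynomial (Fin n) k) = (1 - (u + v) + v) + u := by ring
    rw [this]
    exact Submodule.add_mem_sup (J₁.add_mem hI hv) hu
  · ext g
    rw [Submodule.mem_inf]
    constructor
    · rintro ⟨hg1, hg2⟩
      have := hc.inf_eq_bot
      have h3 : Ideal.Quotient.mk I g ∈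
          LinearMap.ker (T ^ (m + 1)) ⊓ LinearMap.range (T ^ (m + 1)) := ⟨hg2, hg1⟩
      rw [this, Submodule.mem_bot, Ideal.Quotient.eq_zero_iff_mem] at h3
      exact h3
    · intro hg
      exact ⟨(h1 g).2 ⟨0, by simpa using hg⟩, (h2 g).2 (I.mul_mem_left _ hg)⟩
  · intro htop
    have : (1 : MvPolynomial (Fin n) k) ∈ J₁ := by rw [htop]; trivial
    obtain ⟨h, hh⟩ := (h1 1).1 this
    have := hp _ hh
    rw [map_sub, map_mul, map_pow, hfp] at this
    simp at this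
  · intro htop
    have : (1 : MvPolynomial (Fin n) k) ∈ J₂ := by rw [htop]; trivial
    have := hq _ ((h2 1).1 this)
    rw [mul_one, map_pow] at this
    exact hfq (pow_eq_zero_iff (Nat.succ_ne_zero m) |>.1 this)

/-- Over an algebraically closed field, a point of the Hilbert scheme that is not supported at
exactly one point splits. -/
theorem exists_split [IsAlgClosed k] (hr : r ≠ 0) (I : Hilb k n r) (h : ¬ OnePoint I) :
    ∃ J₁ J₂ : Ideal (MvPolynomial (Fin n) k),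
      J₁ ⊔ J₂ = ⊤ ∧ J₁ ⊓ J₂ = I.1 ∧ J₁ ≠ ⊤ ∧ J₂ ≠ ⊤ := by
  have hI : I.1 ≠ ⊤ := by
    intro htop
    have := I.2.2
    have h2 : Subsingleton (MvPolynomial (Fin n) k ⧸ I.1) :=
      Ideal.Quotient.subsingleton_iff.2 htop
    rw [Module.finrank_zero_of_subsingleton] at this
    exact hr this.symm
  obtain ⟨M, hM, hIM⟩ := Ideal.exists_le_maximal I.1 hI
  obtain ⟨p, hp⟩ := (isMaximal_iff_eq_vanishingIdeal_singleton (K := k)).1 hM
  have hpI : ∀ f ∈ I.1, eval p f = 0 := by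
    intro f hf
    have := hIM hf
    rw [hp] at this
    exact (mem_vanishingIdeal_singleton_iff p f).1 this
  have : ∃ q, q ≠ p ∧ ∀ f ∈ I.1, eval q f = 0 := by
    by_contra hcon
    push Not at hcon
    apply h
    refine ⟨p, hpI, fun q hq => ?_⟩
    by_contra hqp
    obtain ⟨f, hf, hf'⟩ := hcon q hqp
    exact hf' (hq f hf)
  obtain ⟨q, hqp, hq⟩ := this
  exact exists_split_of_ne I.1 I.2.1 q p hqp hq hpI

end Run7.h292.HE
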